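import Pool.Agent.Helper92.CYC.Main

/-!
# MP_827cb6_ag : the wild duality for all representations of all finite groups with cyclic Sylow
`p`-subgroups

`G` is a finite group whose Sylow `p`-subgroups are cyclic and `ρ` is a faithful representation of
dimension `d` over `k`. If the integral `∫ L^(d - v)` over the space of all `G`-torsors over
`k((t))` converges, then the Poincare realizations of `M_st(X)` and of `M_st(X)_o` are rational
functions `R(S)` and `T^(2d) R(S⁻¹)` of `S = T^(1/#G)`.
-/

namespace Pool.Agent.Results.MP_827cb6_ag.CyclicSylow

open Polynomial Pool.Agent.Helper92.CYC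

universe u v

theorem result (p : ℕ) [Fact p.Prime] (k : Type u) [Field k] [IsAlgClosed k] [CharP k p]
    (G : Type v) [Group G] [Finite G] (hG : ∀ P : Sylow p G, IsCyclic P) {d : ℕ}
    (ρ : G →* Matrix (Fin d) (Fin d) k) (hρ : Function.Injective ρ) (e : Realization k) :
    WildDuality p (LaurentSeries k) (SeparableClosure (LaurentSeries k))
      (PowerSeries.X : PowerSeries k) ρ e :=
  main p k G hG ρ hρ e

end Pool.Agent.Results.MP_827cb6_ag.CyclicSylow
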