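import Pool.Agent.Helper10.HS.SMain

/-!
# MP_827cb6_ag : the duality for the permutation representations of the Heisenberg groups

`p` is an odd prime, `G = Heis p` the group of unitriangular `3 × 3` matrices over `𝔽_p`, `V` the
direct sum of the permutation modules `k[G / B_s]`, assumed to be faithful. `Mst` and `Mo` are the
numbers of points of `M_st(V / G)` and `M_st(V / G)_o` over the field with `q = p ^ r` elements.
-/

namespace Pool.Agent.Results.MP_827cb6_ag.HeisenbergGroups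

open Pool.Agent.Helper10.HS Pool.Agent.Helper10.HS.Slim Polynomial ENNReal

theorem result (p : ℕ) [Fact p.Prime] (hp : 3 ≤ p) (m : ℕ) (B : Fin m → Subgroup (Heis p))
    (hB : Slim.Faithful B) :
    ∃ P Q : ℤ[X], (∀ x : ℝ, 0 < x → x ≠ 1 → aeval x Q ≠ 0) ∧
      ∀ (F : Type) [Field F] [CharP F p] [IsAlgClosed F], ∀ r : ℕ, 0 < r →
        Slim.Mst (Slim.coef : Slim.Par p F → ℕ →₀ F) B (Slim.frobP r) ((p : ℝ≥0∞) ^ r) =
          ENNReal.ofReal (aeval (Real.sqrt (p ^ r)) P / aeval (Real.sqrt (p ^ r)) Q) ∧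
        Slim.Mo (Slim.coef : Slim.Par p F → ℕ →₀ F) B (Slim.frobP r) ((p : ℝ≥0∞) ^ r) =
          ENNReal.ofReal ((p : ℝ) ^ (r * Slim.dimV B) *
            (aeval (Real.sqrt (p ^ r))⁻¹ P / aeval (Real.sqrt (p ^ r))⁻¹ Q)) :=
  Slim.main p hp m B hB

end Pool.Agent.Results.MP_827cb6_ag.HeisenbergGroups
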