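import Pool.Agent.Helper12.WP.Main

/-!
# MP_827cb6_ag : the duality for p-permutation modules of finite abelian groups

`G = P × T`, `P` an abelian `p`-group with character group `D` (killed by `p ^ N`), `T` an abelian
group of order prime to `p`, `V` the direct sum of the modules `V s = λ_s ⊗ k[P / B_s]`.
`Mst p N k V` and `Mo p N k V` are the numbers of `k`-points of `M_st(V / G)` and `M_st(V / G)_o`.
-/

namespace Pool.Agent.Results.MP_827cb6_ag.PermutationAbelian

open Pool.Agent.WP Polynomial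

theorem result (p N n m : ℕ) [Fact p.Prime] (hn : n.Coprime p)
    (D T : Type) [AddCommGroup D] [Fintype D] [AddCommGroup T] [Fintype T]
    (hD : ∀ x : D, p ^ N • x = 0) (V : Fin m → Blk D T n)
    (hfin : ∃ (k : Type) (_ : Field k) (_ : Fintype k) (_ : CharP k p), Mst p N k V ≠ ⊤) :
    ∃ A B : ℤ[X], (∀ x : ℝ, 0 < x → x ≠ 1 → aeval x B ≠ 0) ∧
      ∀ (k : Type) [Field k] [Fintype k] [CharP k p],
        Mst p N k V = ENNReal.ofReal
          (aeval ((Fintype.card k : ℝ) ^ (1 / (4 * n : ℝ))) A /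
            aeval ((Fintype.card k : ℝ) ^ (1 / (4 * n : ℝ))) B) ∧
        Mo p N k V = ENNReal.ofReal ((Fintype.card k : ℝ) ^ dimV V *
          (aeval ((Fintype.card k : ℝ) ^ (1 / (4 * n : ℝ)))⁻¹ A /
            aeval ((Fintype.card k : ℝ) ^ (1 / (4 * n : ℝ)))⁻¹ B)) :=
  Pool.Agent.WP.main hD hn V hfin

end Pool.Agent.Results.MP_827cb6_ag.PermutationAbelian
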