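import Pool.Agent.WD.StProof

/-!
# MP_827cb6_ag : the wild duality for sums of symmetric powers of planes

`G = (ℤ/p)^r` acts faithfully on `V = ⊕_B Sym^(m_B - 1)(U_B)`, `m_B ≤ p`, `dim U_B = 2`, where
`g ∈ G` acts on `U_B` by `[[1, ℓ_B(g)], [0, 1]]` for an arbitrary additive character
`ℓ_B : G → k`. These are all faithful direct sums of symmetric powers (of degree `< p`) of
representations of dimension at most two of `p`-groups; in particular all faithful direct sums of
representations of dimension at most two, and all faithful representations of `ℤ/p`.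

If the integral `∫ L^(d - v)` over the space of all `G`-torsors converges, then the Poincare
realizations of `M_st(X)` and of `M_st(X)_o` are rational functions `R(T)` and
`T^(2d) R(T⁻¹)`.
-/

namespace Pool.Agent.Results.MP_827cb6_ag.SymmetricPowerSums

open Polynomial Pool.Agent.WD

universe u

theorem result (p : ℕ) [Fact p.Prime] (k : Type u) [Field k] [IsAlgClosed k] [CharP k p]
    {r n : ℕ} (ℓ : Fin n → Fin r → k) (m : Fin n → ℕ) (hm : ∀ B, m B ≤ p)
    (hf : Faithful p ℓ m) (e : Realization k) :
    (∀ c : Par p r k, ∃! a, VT ℓ m c a) ∧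
    ∃ (P : ℕ → ℤ[X]) (Q : ℤ → ℤ[X]),
      (∀ a, HasClass e {c : Par p r k | VT ℓ m c a} (P a)) ∧
      (∀ b, HasClass e {c : Par p r k | WT ℓ m c b} (Q b)) ∧
      (Converges P → DualSums (dimV m) P Q) :=
  final' p k ℓ m hm hf e

end Pool.Agent.Results.MP_827cb6_ag.SymmetricPowerSums
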